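import Pool.Agent.Y719.NG.Iff
import Pool.Agent.Y719.EL.NF9

/-!
# Integral powers: the moduli of finitely many twists
-/

set_option autoImplicit false

namespace Pool.Agent.Y719.NG

open Filter Topology MeasureTheory Finset Polynomial NumberField IsDedekindDomain
  Pool.Agent.H921R2.TatePole
open Pool.Agent.Y774.MD (Concentrated GP nm_pos)
open Pool.Agent.Y719.EL.N
open Pool.Agent.W401.Cheb (GK IsFrob IsInert)

variable {K : Type} [Field K] [NumberField K]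

variable {κ : Type} [Fintype κ] {B₀ : HeightOneSpectrum (𝓞 K) → ℂ[X]}
  {B : κ → HeightOneSpectrum (𝓞 K) → ℂ[X]} {N₀ : ℕ} {n : κ → ℕ} {m : κ → ℤ}

omit [NumberField K] in
lemma tws_prod (ψ : HeightOneSpectrum (𝓞 K) → ℂ) (e : κ → ℕ) :
    tws ψ (fun v => ∏ k, B k v ^ e k) = fun v => ∏ k, tws ψ (B k) v ^ e k := by
  funext v
  refine Polynomial.funext fun z => ?_
  rw [tws_eval, eval_prod, eval_prod]
  refine prod_congr rfl fun k _ => ?_
  rw [eval_pow, eval_pow, tws_eval]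

omit [NumberField K] in
lemma tws_mul_prod (ψ : HeightOneSpectrum (𝓞 K) → ℂ) (e : κ → ℕ) :
    tws ψ (fun v => B₀ v * ∏ k, B k v ^ e k) =
      fun v => tws ψ B₀ v * ∏ k, tws ψ (B k) v ^ e k := by
  funext v
  refine Polynomial.funext fun z => ?_
  rw [tws_eval, eval_mul, eval_mul, eval_prod, eval_prod, tws_eval]
  congr 1
  refine prod_congr rfl fun k _ => ?_
  rw [eval_pow, eval_pow, tws_eval]

lemma prod_coeff_zero (h : ∀ k, Typ (B k) (n k)) (v : HeightOneSpectrum (𝓞 K)) (e : κ → ℕ) :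
    (∏ k, B k v ^ e k).coeff 0 = 1 := by
  rw [coeff_zero_prod]
  exact prod_eq_one fun k _ => (coeff_one_pow ((h k).one v) _).1

lemma prod_coeff_one (h : ∀ k, Typ (B k) (n k)) (v : HeightOneSpectrum (𝓞 K)) (e : κ → ℕ) :
    (∏ k, B k v ^ e k).coeff 1 = ∑ k, (e k : ℂ) * (B k v).coeff 1 := by
  rw [coeff_one_prod _ _ fun k _ => (coeff_one_pow ((h k).one v) _).1]
  exact sum_congr rfl fun k _ => (coeff_one_pow ((h k).one v) _).2

lemma prod_deg (h : ∀ k, Typ (B k) (n k)) (v : HeightOneSpectrum (𝓞 K)) (e : κ → ℕ) :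
    (∏ k, B k v ^ e k).natDegree ≤ ∑ k, e k * n k := by
  refine (natDegree_prod_le _ _).trans (sum_le_sum fun k _ => ?_)
  exact natDegree_pow_le.trans (Nat.mul_le_mul le_rfl ((h k).dg v))

/-- **The identity of the Euler factors at all places.** -/
theorem factors_int {ι : Type} (h₀ : Typ B₀ N₀) (h : ∀ k, Typ (B k) (n k))
    {ψ : ι → HeightOneSpectrum (𝓞 K) → ℂ} (hψ : ∀ j v, ‖ψ j v‖ ≤ 1) {M : ℕ}
    (hM₀ : N₀ + ∑ k, (-m k).toNat * n k ≤ M) (hM : ∑ k, (m k).toNat * n k ≤ M)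
    (hsep : Sep ψ M)
    (hc : ∀ j, Concentrated fun τ => Real.log (edgeAbs (tws (ψ j) B₀) τ) -
      ∑ k, m k * Real.log (edgeAbs (tws (ψ j) (B k)) τ)) (v : HeightOneSpectrum (𝓞 K)) :
    B₀ v * ∏ k, B k v ^ (-m k).toNat = ∏ k, B k v ^ (m k).toNat := by
  obtain ⟨q, hq, hv⟩ : ∃ (q : ℕ) (hq : q.Prime), below v = ⟨q, hq⟩ :=
    ⟨(below v : ℕ), (below v).2, rfl⟩
  refine sep_eq (N := M) (A := fun v => B₀ v * ∏ k, B k v ^ (-m k).toNat)
    (A' := fun v => ∏ k, B k v ^ (m k).toNat) hsep (fun v => ?_) (fun v => ?_) (fun v => ?_)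
    (fun v => ?_) hq (fun j => ?_) ⟨v, hv⟩
  · rw [mul_coeff_zero, h₀.one v, prod_coeff_zero h, one_mul]
  · exact prod_coeff_zero h v _
  · exact (natDegree_mul_le.trans (Nat.add_le_add (h₀.dg v) (prod_deg h v _))).trans hM₀
  · exact (prod_deg h v _).trans hM
  · rw [tws_mul_prod, tws_prod]
    exact GP_int (h₀.twist (hψ j)) (fun k => (h k).twist (hψ j)) (hc j) hq

/-- the coefficients -/
theorem coeff_int {ι : Type} {w : ℝ} {P₀ : HeightOneSpectrum (𝓞 K) → ℂ[X]}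
    {P : κ → HeightOneSpectrum (𝓞 K) → ℂ[X]} (h₀ : Typ (nz w P₀) N₀)
    (h : ∀ k, Typ (nz w (P k)) (n k)) {ψ : ι → HeightOneSpectrum (𝓞 K) → ℂ}
    (hψ : ∀ j v, ‖ψ j v‖ ≤ 1) {M : ℕ} (hM₀ : N₀ + ∑ k, (-m k).toNat * n k ≤ M)
    (hM : ∑ k, (m k).toNat * n k ≤ M) (hsep : Sep ψ M)
    (hc : ∀ j, Concentrated fun τ => Real.log (eA w P₀ (ψ j) τ) -
      ∑ k, m k * Real.log (eA w (P k) (ψ j) τ)) (v : HeightOneSpectrum (𝓞 K)) :
    (P₀ v).coeff 1 = ∑ k, (m k : ℂ) * (P k v).coeff 1 := by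
  have hc' : ∀ j, Concentrated fun τ => Real.log (edgeAbs (tws (ψ j) (nz w P₀)) τ) -
      ∑ k, m k * Real.log (edgeAbs (tws (ψ j) (nz w (P k))) τ) := by
    intro j
    have := hc j
    simp only [eA_eq] at this
    exact this
  have h1 := factors_int h₀ h hψ hM₀ hM hsep hc' v
  have h2 : (nz w P₀ v * ∏ k, nz w (P k) v ^ (-m k).toNat).coeff 1 =
      (∏ k, nz w (P k) v ^ (m k).toNat).coeff 1 := by rw [h1]
  rw [mul_coeff_one, h₀.one v, prod_coeff_zero h, prod_coeff_one h, prod_coeff_one h, one_mul,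
    mul_one] at h2
  have hnz : ∀ (P : HeightOneSpectrum (𝓞 K) → ℂ[X]) (u : HeightOneSpectrum (𝓞 K)),
      (nz w P u).coeff 1 = (P u).coeff 1 * (((nm u : ℝ) ^ (-(w / 2)) : ℝ) : ℂ) := by
    intro P u
    unfold nz
    rw [comp_C_mul_X_coeff, pow_one]
  simp_rw [hnz] at h2
  have hne : ((((nm v : ℝ) ^ (-(w / 2)) : ℝ)) : ℂ) ≠ 0 := by
    exact_mod_cast (Real.rpow_pos_of_pos (nm_real_pos v) _).ne'
  refine mul_right_cancel₀ hne ?_
  have h6 : ∀ k, (m k : ℂ) = ((m k).toNat : ℂ) - ((-m k).toNat : ℂ) := by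
    intro k
    have h7 : m k = ((m k).toNat : ℤ) - ((-m k).toNat : ℤ) := by omega
    have h8 := congrArg (fun z : ℤ => (z : ℂ)) h7
    push_cast at h8
    exact h8
  rw [sum_mul]
  have h9 : ∑ k, (m k : ℂ) * (P k v).coeff 1 * (((nm v : ℝ) ^ (-(w / 2)) : ℝ) : ℂ) =
      ∑ k, ((m k).toNat : ℂ) * ((P k v).coeff 1 * (((nm v : ℝ) ^ (-(w / 2)) : ℝ) : ℂ)) -
      ∑ k, ((-m k).toNat : ℂ) * ((P k v).coeff 1 * (((nm v : ℝ) ^ (-(w / 2)) : ℝ) : ℂ)) := by
    rw [← sum_sub_distrib]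
    refine sum_congr rfl fun k _ => ?_
    rw [← sub_mul, ← h6, mul_assoc]
  rw [h9, ← h2]
  ring

section

variable {k : Type} [Field k] [CharZero k] [TopologicalSpace k] [IsTopologicalRing k] [T1Space k]
  {n₀ : ℕ} {N : κ → ℕ}

/-- **The moduli of finitely many twists.** -/
theorem twisted_moduli {I : Type} {w : ℝ} {P₀ : HeightOneSpectrum (𝓞 K) → ℂ[X]}
    {P : κ → HeightOneSpectrum (𝓞 K) → ℂ[X]} {m : κ → ℤ} (h₀ : Typ (nz w P₀) N₀)
    (h : ∀ j, Typ (nz w (P j)) (N j)) {ψ : I → HeightOneSpectrum (𝓞 K) → ℂ}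
    (hψ : ∀ j v, ‖ψ j v‖ ≤ 1) {M : ℕ} (hM₀ : N₀ + ∑ k, (-m k).toNat * N k ≤ M)
    (hM : ∑ k, (m k).toNat * N k ≤ M) (hsep : Sep ψ M)
    (hc : ∀ i, Concentrated fun τ => Real.log (eA w P₀ (ψ i) τ) -
      ∑ j, m j * Real.log (eA w (P j) (ψ i) τ))
    (ι : k →+* ℂ) {ρ : GK K →* GL (Fin n₀) k} (hρ : Continuous ρ) (hi : Irr ρ)
    {R : ∀ j, GK K →* GL (Fin (n j)) k} (hR : ∀ j, Continuous (R j)) (hs : ∀ j, SS (R j))
    (S : Set (HeightOneSpectrum (𝓞 K))) (hS : S.Finite)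
    (ha₀ : ∀ v ∉ S, Att ρ ι v (P₀ v)) (ha : ∀ j, ∀ v ∉ S, Att (R j) ι v (P j v)) :
    ∃ j, 0 < m j ∧ ∃ H : Matrix (Fin (n j)) (Fin n₀) k, (∀ x, H.mulVec x = 0 → x = 0) ∧
        ∀ g, mt (R j) g * H = H * mt ρ g := by
  classical
  -- the trace function
  set F : GK K → k := fun g => (mt ρ g).trace - ∑ j, (m j : k) * (mt (R j) g).trace with hF
  have hFc : Continuous F := by
    refine (continuous_trace hρ).sub ?_
    refine continuous_finsetSum _ fun j _ => ?_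
    exact continuous_const.mul (continuous_trace (hR j))
  have hFconj : ∀ g h, F (h * g * h⁻¹) = F g := by
    intro g h
    simp only [hF]
    rw [trace_conj]
    congr 1
    exact sum_congr rfl fun j _ => by rw [trace_conj]
  have hzero : ∀ g, F g⁻¹ = 0 := by
    intro g
    refine closed_univK {g | F g⁻¹ = 0} ?_ ?_ S hS ?_ g
    · have h1 : IsClosed ((fun g => F g⁻¹) ⁻¹' {0}) :=
        isClosed_singleton.preimage (hFc.comp continuous_inv)
      exact h1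
    · intro g hg τ
      change F (τ * g * τ⁻¹)⁻¹ = 0
      have h1 : (τ * g * τ⁻¹)⁻¹ = τ * g⁻¹ * τ⁻¹ := by group
      rw [h1, hFconj]
      exact hg
    · intro v hv g hg
      change F g⁻¹ = 0
      apply ι.injective
      rw [map_zero]
      have h1 := coeff_int h₀ h hψ hM₀ hM hsep hc v
      simp only [hF]
      rw [map_sub, map_sum, (ha₀ v hv).coeff_one hg, h1]
      have h5 : ∑ j, ι ((m j : k) * (mt (R j) g⁻¹).trace) =
          - ∑ j, (m j : ℂ) * (P j v).coeff 1 := by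
        rw [← sum_neg_distrib]
        refine sum_congr rfl fun j _ => ?_
        rw [map_mul, map_intCast, (ha j v hv).coeff_one hg]
        ring
      rw [h5]
      ring
  have hzero' : ∀ g, F g = 0 := fun g => by
    have := hzero g⁻¹
    rwa [inv_inv] at this
  -- the representations
  let J : Type := Unit ⊕ (Σ j : κ, Fin (-m j).toNat)
  let L : Type := Σ j : κ, Fin (m j).toNat
  let nJ : J → ℕ := Sum.elim (fun _ => n₀) (fun x => n x.1)
  let ρJ : ∀ j : J, GK K →* GL (Fin (nJ j)) k := fun j => match j with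
    | Sum.inl _ => ρ
    | Sum.inr x => R x.1
  let ρL : ∀ l : L, GK K →* GL (Fin (n l.1)) k := fun l => R l.1
  have htr : ∀ g, ∑ j, (mt (ρJ j) g).trace = ∑ l, (mt (ρL l) g).trace := by
    intro g
    have e1 : ∑ j, (mt (ρJ j) g).trace = (mt ρ g).trace +
        ∑ j, ((-m j).toNat : k) * (mt (R j) g).trace := by
      rw [Fintype.sum_sum_type]
      congr 1
      · rw [Fintype.sum_unique]
        rfl
      rw [Fintype.sum_sigma]
      refine sum_congr rfl fun j _ => ?_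
      change ∑ _x : Fin (-m j).toNat, (mt (R j) g).trace = _
      rw [sum_const, card_univ, Fintype.card_fin, nsmul_eq_mul]
    have e2 : ∑ l, (mt (ρL l) g).trace = ∑ j, ((m j).toNat : k) * (mt (R j) g).trace := by
      rw [Fintype.sum_sigma]
      refine sum_congr rfl fun j _ => ?_
      change ∑ _x : Fin (m j).toNat, (mt (R j) g).trace = _
      rw [sum_const, card_univ, Fintype.card_fin, nsmul_eq_mul]
    have e3 := hzero' g
    simp only [hF] at e3
    rw [sub_eq_zero] at e3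
    rw [e1, e2, e3, ← sum_add_distrib]
    refine sum_congr rfl fun j _ => ?_
    rw [← add_mul]
    congr 1
    have h7 : m j + ((-m j).toNat : ℤ) = ((m j).toNat : ℤ) := by omega
    have h8 := congrArg (fun z : ℤ => (z : k)) h7
    push_cast at h8
    exact h8
  obtain ⟨l, H, hH0, hH⟩ := exists_intertwiner ρJ ρL (Sum.inl ()) hi (fun l => hs l.1) htr
  refine ⟨l.1, ?_, H, hH0, hH⟩
  have h1 : 0 < (m l.1).toNat := Fin.pos l.2
  omega

end

end Pool.Agent.Y719.NG
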