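import Pool.Agent.Y719.NG.Rep

/-!
# Representations of groups with a linear relation of the traces
-/

set_option autoImplicit false

namespace Pool.Agent.Y719.NG

open Polynomial

variable {G : Type} [Group G] {k : Type} [Field k] {n : ℕ}

/-- the matrix of `g` -/
def mt (ρ : G →* GL (Fin n) k) (g : G) : Matrix (Fin n) (Fin n) k := (ρ g : GL (Fin n) k)

lemma mt_one (ρ : G →* GL (Fin n) k) : mt ρ 1 = 1 := by
  unfold mt
  rw [map_one, Units.val_one]

lemma mt_mul (ρ : G →* GL (Fin n) k) (g h : G) : mt ρ (g * h) = mt ρ g * mt ρ h := by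
  unfold mt
  rw [map_mul, Units.val_mul]

/-- stable subspaces -/
def Stb (ρ : G →* GL (Fin n) k) (W : Submodule k (Fin n → k)) : Prop :=
  ∀ g, ∀ x ∈ W, (mt ρ g).mulVec x ∈ W

/-- irreducible representations -/
def Irr (ρ : G →* GL (Fin n) k) : Prop :=
  0 < n ∧ ∀ W : Submodule k (Fin n → k), Stb ρ W → W = ⊥ ∨ W = ⊤

/-- semisimple representations -/
def SS (ρ : G →* GL (Fin n) k) : Prop :=
  ∀ W : Submodule k (Fin n → k), Stb ρ W → ∃ W', Stb ρ W' ∧ IsCompl W W'

lemma Irr.ss {ρ : G →* GL (Fin n) k} (h : Irr ρ) : SS ρ := by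
  intro W hW
  rcases h.2 W hW with h1 | h1
  · subst h1
    exact ⟨⊤, fun _ _ _ => trivial, isCompl_bot_top⟩
  · subst h1
    exact ⟨⊥, fun g x hx => by rw [Submodule.mem_bot] at hx ⊢; rw [hx, Matrix.mulVec_zero],
      isCompl_top_bot⟩

/-- the homomorphism of the group algebra -/
noncomputable def ga (ρ : G →* GL (Fin n) k) : MonoidAlgebra k G →ₐ[k] Matrix (Fin n) (Fin n) k :=
  MonoidAlgebra.lift k (Matrix (Fin n) (Fin n) k) G
    ((Units.coeHom (Matrix (Fin n) (Fin n) k)).comp ρ)

lemma ga_single (ρ : G →* GL (Fin n) k) (g : G) (c : k) :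
    ga ρ (MonoidAlgebra.single g c) = c • mt ρ g := by
  unfold ga
  rw [MonoidAlgebra.lift_single]
  rfl

lemma ga_stable {ρ : G →* GL (Fin n) k} {W : Submodule k (Fin n → k)} (hW : Stb ρ W)
    (a : MonoidAlgebra k G) {x : Fin n → k} (hx : x ∈ W) : (ga ρ a).mulVec x ∈ W := by
  induction a using MonoidAlgebra.induction_linear with
  | zero => rw [map_zero, Matrix.zero_mulVec]; exact W.zero_mem
  | add a b ha hb => rw [map_add, Matrix.add_mulVec]; exact W.add_mem ha hb
  | single g c =>
    rw [ga_single, Matrix.smul_mulVec]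
    exact W.smul_mem _ (hW g x hx)

/-- the subspace of a submodule -/
def toSub {ρ : G →* GL (Fin n) k} (N : Submodule (MonoidAlgebra k G) (Md (ga ρ))) :
    Submodule k (Fin n → k) where
  carrier := {x | (show Md (ga ρ) from x) ∈ N}
  add_mem' := fun {a b} ha hb => N.add_mem ha hb
  zero_mem' := N.zero_mem
  smul_mem' := by
    intro c x hx
    have h1 := N.smul_mem (MonoidAlgebra.single 1 c) hx
    have h2 : (MonoidAlgebra.single (1 : G) c : MonoidAlgebra k G) • (show Md (ga ρ) from x) =
        (show Md (ga ρ) from c • x) := by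
      change (ga ρ (MonoidAlgebra.single (1 : G) c)).mulVec x = c • x
      rw [ga_single, mt_one, Matrix.smul_mulVec, Matrix.one_mulVec]
    rw [h2] at h1
    exact h1

lemma toSub_stable {ρ : G →* GL (Fin n) k} (N : Submodule (MonoidAlgebra k G) (Md (ga ρ))) :
    Stb ρ (toSub N) := by
  intro g x hx
  have h1 := N.smul_mem (MonoidAlgebra.single g 1) hx
  have h2 : (MonoidAlgebra.single g (1 : k) : MonoidAlgebra k G) • (show Md (ga ρ) from x) =
      (show Md (ga ρ) from (mt ρ g).mulVec x) := by
    change (ga ρ (MonoidAlgebra.single g (1 : k))).mulVec x = (mt ρ g).mulVec x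
    rw [ga_single, one_smul]
  rw [h2] at h1
  exact h1

/-- the submodule of a stable subspace -/
def ofSub {ρ : G →* GL (Fin n) k} (W : Submodule k (Fin n → k)) (hW : Stb ρ W) :
    Submodule (MonoidAlgebra k G) (Md (ga ρ)) where
  carrier := {x | (show Fin n → k from x) ∈ W}
  add_mem' := fun {a b} ha hb => W.add_mem ha hb
  zero_mem' := W.zero_mem
  smul_mem' := fun a x hx => ga_stable hW a hx

lemma Irr.simple {ρ : G →* GL (Fin n) k} (h : Irr ρ) :
    IsSimpleModule (MonoidAlgebra k G) (Md (ga ρ)) := by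
  have hn : Nonempty (Fin n) := ⟨⟨0, h.1⟩⟩
  have hnt : Nontrivial (Md (ga ρ)) := inferInstanceAs (Nontrivial (Fin n → k))
  refine { toIsSimpleOrder := { exists_pair_ne := ?_, eq_bot_or_eq_top := fun N => ?_ } }
  · exact ⟨⊥, ⊤, bot_ne_top⟩
  · rcases h.2 (toSub N) (toSub_stable N) with h1 | h1
    · left
      rw [eq_bot_iff]
      intro x hx
      have h2 : (show Fin n → k from x) ∈ toSub N := hx
      rw [h1, Submodule.mem_bot] at h2
      exact h2
    · right
      rw [eq_top_iff]
      intro x _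
      have h2 : (show Fin n → k from x) ∈ toSub N := by rw [h1]; trivial
      exact h2

lemma SS.semisimple {ρ : G →* GL (Fin n) k} (h : SS ρ) :
    IsSemisimpleModule (MonoidAlgebra k G) (Md (ga ρ)) := by
  refine { toComplementedLattice := ⟨fun N => ?_⟩ }
  obtain ⟨W', hW', hc⟩ := h (toSub N) (toSub_stable N)
  refine ⟨ofSub W' hW', ?_⟩
  rw [isCompl_iff, disjoint_iff, codisjoint_iff] at hc ⊢
  refine ⟨?_, ?_⟩
  · rw [eq_bot_iff]
    intro x hx
    rw [Submodule.mem_inf] at hx
    have h2 : (show Fin n → k from x) ∈ toSub N ⊓ W' := ⟨hx.1, hx.2⟩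
    rw [hc.1, Submodule.mem_bot] at h2
    exact h2
  · rw [eq_top_iff]
    intro x _
    have h2 : (show Fin n → k from x) ∈ toSub N ⊔ W' := by rw [hc.2]; trivial
    obtain ⟨y, hy, z, hz, hyz⟩ := Submodule.mem_sup.1 h2
    exact Submodule.mem_sup.2 ⟨y, hy, z, hz, hyz⟩

/-- **Simple constituents from a relation of traces.** -/
theorem exists_intertwiner [CharZero k] {J L : Type} [Fintype J] [Fintype L] {n : J → ℕ}
    {m : L → ℕ} (ρ : ∀ j, G →* GL (Fin (n j)) k) (R : ∀ l, G →* GL (Fin (m l)) k) (j₀ : J)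
    (hi : Irr (ρ j₀)) (hs : ∀ l, SS (R l))
    (htr : ∀ g, ∑ j, (mt (ρ j) g).trace = ∑ l, (mt (R l) g).trace) :
    ∃ l, ∃ H : Matrix (Fin (m l)) (Fin (n j₀)) k, (∀ x, H.mulVec x = 0 → x = 0) ∧
      ∀ g, mt (R l) g * H = H * mt (ρ j₀) g := by
  haveI := hi.simple
  haveI := fun l => (hs l).semisimple
  obtain ⟨l, f, hf⟩ := exists_hom (fun j => ga (ρ j)) (fun l => ga (R l)) j₀ (fun a => by
    induction a using MonoidAlgebra.induction_linear with
    | zero => simp
    | add a b ha hb =>
      simp only [map_add, Matrix.trace_add, Finset.sum_add_distrib]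
      rw [ha, hb]
    | single g c =>
      simp only [ga_single, Matrix.trace_smul, ← Finset.smul_sum]
      rw [htr])
  have hinj : Function.Injective f := by
    rcases LinearMap.injective_or_eq_zero f with h | h
    · exact h
    · exact absurd h hf
  let F : (Fin (n j₀) → k) →ₗ[k] (Fin (m l) → k) :=
    { toFun := fun x => f (show Md (ga (ρ j₀)) from x)
      map_add' := fun x y => f.map_add _ _
      map_smul' := fun c x => by
        have h1 := f.map_smul (MonoidAlgebra.single (1 : G) c) (show Md (ga (ρ j₀)) from x)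
        have h2 : (MonoidAlgebra.single (1 : G) c : MonoidAlgebra k G) •
            (show Md (ga (ρ j₀)) from x) = (show Md (ga (ρ j₀)) from c • x) := by
          change (ga (ρ j₀) (MonoidAlgebra.single (1 : G) c)).mulVec x = c • x
          rw [ga_single, mt_one, Matrix.smul_mulVec, Matrix.one_mulVec]
        have h3 : ∀ y : Md (ga (R l)), (MonoidAlgebra.single (1 : G) c : MonoidAlgebra k G) • y =
            (show Md (ga (R l)) from c • (show Fin (m l) → k from y)) := by
          intro y
          change (ga (R l) (MonoidAlgebra.single (1 : G) c)).mulVec y = c • (show Fin (m l) → k from y)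
          rw [ga_single, mt_one, Matrix.smul_mulVec, Matrix.one_mulVec]
        rw [h2, h3] at h1
        exact h1 }
  refine ⟨l, LinearMap.toMatrix' F, fun x hx => ?_, fun g => ?_⟩
  · rw [LinearMap.toMatrix'_mulVec] at hx
    exact hinj (hx.trans (map_zero f).symm)
  · have key : ∀ x, (mt (R l) g * LinearMap.toMatrix' F).mulVec x =
        (LinearMap.toMatrix' F * mt (ρ j₀) g).mulVec x := by
      intro x
      rw [← Matrix.mulVec_mulVec, ← Matrix.mulVec_mulVec, LinearMap.toMatrix'_mulVec,
        LinearMap.toMatrix'_mulVec]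
      have h1 := f.map_smul (MonoidAlgebra.single g (1 : k)) (show Md (ga (ρ j₀)) from x)
      have h2 : (MonoidAlgebra.single g (1 : k) : MonoidAlgebra k G) •
          (show Md (ga (ρ j₀)) from x) = (show Md (ga (ρ j₀)) from (mt (ρ j₀) g).mulVec x) := by
        change (ga (ρ j₀) (MonoidAlgebra.single g (1 : k))).mulVec x = _
        rw [ga_single, one_smul]
      have h3 : ∀ y : Md (ga (R l)), (MonoidAlgebra.single g (1 : k) : MonoidAlgebra k G) • y =
          (show Md (ga (R l)) from (mt (R l) g).mulVec (show Fin (m l) → k from y)) := by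
        intro y
        change (ga (R l) (MonoidAlgebra.single g (1 : k))).mulVec y = _
        rw [ga_single, one_smul]
      rw [h2, h3] at h1
      exact h1.symm
    ext i j
    have h4 := congrFun (key (Pi.single j 1)) i
    rw [Matrix.mulVec_single_one, Matrix.mulVec_single_one] at h4
    exact h4

/-- equal dimensions: the intertwiner is invertible -/
lemma conj_of_intertwiner {ρ R : G →* GL (Fin n) k} {H : Matrix (Fin n) (Fin n) k}
    (h0 : ∀ x, H.mulVec x = 0 → x = 0) (h : ∀ g, mt R g * H = H * mt ρ g) :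
    ∃ Q : GL (Fin n) k, ∀ g, R g = Q * ρ g * Q⁻¹ := by
  have hu : IsUnit H := by
    rw [← Matrix.mulVec_injective_iff_isUnit]
    intro x y hxy
    have h1 : H.mulVec (x - y) = 0 := by rw [Matrix.mulVec_sub]; exact sub_eq_zero.2 hxy
    exact sub_eq_zero.1 (h0 _ h1)
  obtain ⟨Q, rfl⟩ := hu
  refine ⟨Q, fun g => ?_⟩
  rw [eq_mul_inv_iff_mul_eq]
  apply Units.ext
  rw [Units.val_mul, Units.val_mul]
  exact h g

end Pool.Agent.Y719.NG
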