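import Pool.Agent.W401.Cheb.Frob
import Pool.Agent.Y719.NG.Grp

/-!
# Conjugation by automorphisms of the algebraic closure
-/

set_option autoImplicit false

namespace Pool.Agent.Y719.NG

open NumberField IsDedekindDomain Pool.Agent.W401.Cheb

section

variable {K : Type} [Field K] [NumberField K]

/-- an automorphism of the algebraic closure, as an algebra automorphism -/
noncomputable def ratEquiv (σ : AlgebraicClosure K ≃+* AlgebraicClosure K) :
    AlgebraicClosure K ≃ₐ[ℚ] AlgebraicClosure K :=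
  AlgEquiv.ofRingEquiv (f := σ) fun q => by simp

variable [IsGalois ℚ K]

/-- the restriction to `K` -/
noncomputable def rs (σ : AlgebraicClosure K ≃+* AlgebraicClosure K) : K ≃ₐ[ℚ] K :=
  (ratEquiv σ).restrictNormal K

lemma rs_spec (σ : AlgebraicClosure K ≃+* AlgebraicClosure K) (a : K) :
    algebraMap K (AlgebraicClosure K) (rs σ a) = σ (algebraMap K (AlgebraicClosure K) a) :=
  AlgEquiv.restrictNormal_commutes (ratEquiv σ) K a

lemma symm_spec (σ : AlgebraicClosure K ≃+* AlgebraicClosure K) (a : K) :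
    σ.symm (algebraMap K (AlgebraicClosure K) a) =
      algebraMap K (AlgebraicClosure K) ((rs σ).symm a) := by
  rw [RingEquiv.symm_apply_eq, ← rs_spec, AlgEquiv.apply_symm_apply]

/-- every automorphism of `K` extends -/
lemma exists_rs (τ : K ≃ₐ[ℚ] K) : ∃ σ : AlgebraicClosure K ≃+* AlgebraicClosure K, rs σ = τ := by
  refine ⟨IsAlgClosure.equivOfEquiv (AlgebraicClosure K) (AlgebraicClosure K) (τ : K ≃+* K), ?_⟩
  apply AlgEquiv.ext
  intro a
  apply (algebraMap K (AlgebraicClosure K)).injective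
  rw [rs_spec, IsAlgClosure.equivOfEquiv_algebraMap]
  rfl

/-- conjugation: `g ↦ σ g σ⁻¹` -/
noncomputable def cj (σ : AlgebraicClosure K ≃+* AlgebraicClosure K) : GK K →* GK K where
  toFun g := AlgEquiv.ofRingEquiv (f := (σ.symm.trans (g : AlgebraicClosure K ≃+* AlgebraicClosure K)).trans σ)
    fun a => by
      change σ (g (σ.symm (algebraMap K (AlgebraicClosure K) a))) = _
      rw [symm_spec, AlgEquiv.commutes, ← rs_spec, AlgEquiv.apply_symm_apply]
  map_one' := by
    apply AlgEquiv.ext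
    intro x
    change σ ((1 : GK K) (σ.symm x)) = x
    rw [AlgEquiv.one_apply, RingEquiv.apply_symm_apply]
  map_mul' g h := by
    apply AlgEquiv.ext
    intro x
    change σ ((g * h) (σ.symm x)) = σ (g (σ.symm (σ (h (σ.symm x)))))
    rw [AlgEquiv.mul_apply, RingEquiv.symm_apply_apply]

lemma cj_apply (σ : AlgebraicClosure K ≃+* AlgebraicClosure K) (g : GK K)
    (x : AlgebraicClosure K) : cj σ g x = σ (g (σ.symm x)) := rfl

lemma cj_refl : cj (RingEquiv.refl (AlgebraicClosure K)) = MonoidHom.id (GK K) := by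
  apply MonoidHom.ext
  intro g
  apply AlgEquiv.ext
  intro x
  rfl

lemma cj_trans (σ τ : AlgebraicClosure K ≃+* AlgebraicClosure K) (g : GK K) :
    cj σ (cj τ g) = cj (τ.trans σ) g := by
  apply AlgEquiv.ext
  intro x
  rfl

lemma cj_surjective (σ : AlgebraicClosure K ≃+* AlgebraicClosure K) :
    Function.Surjective (cj (K := K) σ) := by
  intro g
  refine ⟨cj σ.symm g, ?_⟩
  apply AlgEquiv.ext
  intro x
  rw [cj_apply, cj_apply]
  simp

/-- conjugation is continuous -/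
lemma cj_continuous (σ : AlgebraicClosure K ≃+* AlgebraicClosure K) :
    Continuous (cj (K := K) σ) := by
  refine continuous_of_continuousAt_one (cj (K := K) σ) ?_
  rw [ContinuousAt, map_one]
  intro s hs
  rw [Filter.mem_map]
  rw [krullTopology_mem_nhds_one_iff] at hs ⊢
  obtain ⟨E, hE, hEs⟩ := hs
  let b := Module.finBasis K E
  refine ⟨IntermediateField.adjoin K (Set.range fun i => σ.symm (b i : AlgebraicClosure K)),
    ?_, ?_⟩
  · have : Finite (Set.range fun i => σ.symm (b i : AlgebraicClosure K)) :=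
      (Set.finite_range _).to_subtype
    refine IntermediateField.finiteDimensional_adjoin fun x _ => ?_
    exact Algebra.IsIntegral.isIntegral x
  · intro g hg
    refine hEs ?_
    change cj σ g ∈ E.fixingSubgroup
    rw [IntermediateField.mem_fixingSubgroup_iff]
    have h1 : ∀ i, cj σ g (b i : AlgebraicClosure K) = b i := by
      intro i
      rw [cj_apply]
      have h2 : g (σ.symm (b i : AlgebraicClosure K)) = σ.symm (b i : AlgebraicClosure K) :=
        (IntermediateField.mem_fixingSubgroup_iff _ _).1 hg _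
          (IntermediateField.subset_adjoin K _ ⟨i, rfl⟩)
      rw [h2, RingEquiv.apply_symm_apply]
    intro x hx
    have h3 : x = ∑ i, b.repr ⟨x, hx⟩ i • (b i : AlgebraicClosure K) := by
      have h4 := congrArg (fun y : E => (y : AlgebraicClosure K)) (b.sum_repr ⟨x, hx⟩)
      simp only [AddSubmonoidClass.coe_finsetSum, IntermediateField.coe_smul] at h4
      exact h4.symm
    rw [h3, map_sum]
    refine Finset.sum_congr rfl fun i _ => ?_
    rw [Algebra.smul_def, map_mul, h1, AlgEquiv.commutes]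

/-- the image of a place -/
noncomputable def pl (τ : K ≃ₐ[ℚ] K) (v : HeightOneSpectrum (𝓞 K)) : HeightOneSpectrum (𝓞 K) where
  asIdeal := v.asIdeal.comap (RingOfIntegers.mapRingEquiv (τ : K ≃+* K)).symm
  isPrime := Ideal.comap_isPrime _ _
  ne_bot := by
    intro h
    apply v.ne_bot
    rw [eq_bot_iff]
    intro x hx
    have h1 : RingOfIntegers.mapRingEquiv (τ : K ≃+* K) x ∈
        v.asIdeal.comap (RingOfIntegers.mapRingEquiv (τ : K ≃+* K)).symm := by
      rw [Ideal.mem_comap, RingEquiv.symm_apply_apply]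
      exact hx
    rw [h, Submodule.mem_bot, map_eq_zero_iff _ (RingEquiv.injective _)] at h1
    exact h1

omit [IsGalois ℚ K] in
lemma mem_pl (τ : K ≃ₐ[ℚ] K) (v : HeightOneSpectrum (𝓞 K)) (a : 𝓞 K) :
    a ∈ (pl τ v).asIdeal ↔ (RingOfIntegers.mapRingEquiv (τ : K ≃+* K)).symm a ∈ v.asIdeal := Iff.rfl

omit [IsGalois ℚ K] in
lemma absNorm_pl (τ : K ≃ₐ[ℚ] K) (v : HeightOneSpectrum (𝓞 K)) :
    Ideal.absNorm (pl τ v).asIdeal = Ideal.absNorm v.asIdeal := by
  rw [Ideal.absNorm_apply, Ideal.absNorm_apply, Submodule.cardQuot_apply,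
    Submodule.cardQuot_apply]
  refine (Nat.card_congr (Ideal.quotientEquiv v.asIdeal (pl τ v).asIdeal
    (RingOfIntegers.mapRingEquiv (τ : K ≃+* K)) ?_).toEquiv).symm
  exact (Ideal.map_comap_of_equiv _).symm

omit [IsGalois ℚ K] in
lemma natCast_mem_pl (τ : K ≃ₐ[ℚ] K) (v : HeightOneSpectrum (𝓞 K)) (p : ℕ) :
    (p : 𝓞 K) ∈ (pl τ v).asIdeal ↔ (p : 𝓞 K) ∈ v.asIdeal := by
  rw [mem_pl, map_natCast]

omit [IsGalois ℚ K] in
lemma pl_pl (τ τ' : K ≃ₐ[ℚ] K) (v : HeightOneSpectrum (𝓞 K)) : pl τ (pl τ' v) = pl (τ * τ') v := by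
  apply HeightOneSpectrum.ext
  ext a
  rw [mem_pl, mem_pl, mem_pl]
  exact Iff.rfl

omit [IsGalois ℚ K] in
lemma pl_one (v : HeightOneSpectrum (𝓞 K)) : pl 1 v = v := by
  apply HeightOneSpectrum.ext
  ext a
  rw [mem_pl]
  exact Iff.rfl

/-- the transported ideal -/
noncomputable def trI (σ : AlgebraicClosure K ≃+* AlgebraicClosure K)
    (Q : Ideal (𝓞 (AlgebraicClosure K))) : Ideal (𝓞 (AlgebraicClosure K)) :=
  Q.comap (RingOfIntegers.mapRingEquiv σ).symm

lemma trI_spec (σ : AlgebraicClosure K ≃+* AlgebraicClosure K)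
    {Q : Ideal (𝓞 (AlgebraicClosure K))} {v : HeightOneSpectrum (𝓞 K)} (hQ : Q.IsMaximal)
    (hQv : Q.comap (algebraMap (𝓞 K) (𝓞 (AlgebraicClosure K))) = v.asIdeal) :
    (trI σ Q).IsMaximal ∧
      (trI σ Q).comap (algebraMap (𝓞 K) (𝓞 (AlgebraicClosure K))) = (pl (rs σ) v).asIdeal := by
  refine ⟨Ideal.comap_isMaximal_of_surjective _ (RingEquiv.surjective _), ?_⟩
  ext a
  rw [Ideal.mem_comap, mem_pl, ← hQv, Ideal.mem_comap]
  have h1 : (RingOfIntegers.mapRingEquiv σ).symm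
      (algebraMap (𝓞 K) (𝓞 (AlgebraicClosure K)) a) =
      algebraMap (𝓞 K) (𝓞 (AlgebraicClosure K))
        ((RingOfIntegers.mapRingEquiv (rs σ : K ≃+* K)).symm a) := by
    apply RingOfIntegers.ext
    exact symm_spec σ (a : K)
  rw [← h1]
  exact Iff.rfl

lemma frob_cj (σ : AlgebraicClosure K ≃+* AlgebraicClosure K) {v : HeightOneSpectrum (𝓞 K)}
    {g : GK K} (h : IsFrob v g) : IsFrob (pl (rs σ) v) (cj σ g) := by
  obtain ⟨Q, hQ, hQv, hQg⟩ := h
  obtain ⟨h1, h2⟩ := trI_spec σ hQ hQv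
  refine ⟨trI σ Q, h1, h2, fun x => ?_⟩
  rw [absNorm_pl]
  change (RingOfIntegers.mapRingEquiv σ).symm (cj σ g • x - x ^ Ideal.absNorm v.asIdeal) ∈ Q
  rw [map_sub, map_pow]
  have h3 : (RingOfIntegers.mapRingEquiv σ).symm (cj σ g • x) =
      g • (RingOfIntegers.mapRingEquiv σ).symm x := by
    apply RingOfIntegers.ext
    change σ.symm (σ (g (σ.symm x))) = g (σ.symm x)
    rw [RingEquiv.symm_apply_apply]
  rw [h3]
  exact hQg _

lemma inert_cj (σ : AlgebraicClosure K ≃+* AlgebraicClosure K) {v : HeightOneSpectrum (𝓞 K)}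
    {g : GK K} (h : IsInert v g) : IsInert (pl (rs σ) v) (cj σ g) := by
  obtain ⟨Q, hQ, hQv, hQg⟩ := h
  obtain ⟨h1, h2⟩ := trI_spec σ hQ hQv
  refine ⟨trI σ Q, h1, h2, fun x => ?_⟩
  change (RingOfIntegers.mapRingEquiv σ).symm (cj σ g • x - x) ∈ Q
  rw [map_sub]
  have h3 : (RingOfIntegers.mapRingEquiv σ).symm (cj σ g • x) =
      g • (RingOfIntegers.mapRingEquiv σ).symm x := by
    apply RingOfIntegers.ext
    change σ.symm (σ (g (σ.symm x))) = g (σ.symm x)
    rw [RingEquiv.symm_apply_apply]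
  rw [h3]
  exact hQg _

omit [NumberField K] [IsGalois ℚ K] in
lemma under_eq_span {v : HeightOneSpectrum (𝓞 K)} {p : ℕ} (hp : p.Prime)
    (h : (p : 𝓞 K) ∈ v.asIdeal) : Ideal.under ℤ v.asIdeal = Ideal.span {(p : ℤ)} := by
  have hmax : (Ideal.span {(p : ℤ)}).IsMaximal :=
    PrincipalIdealRing.isMaximal_of_irreducible (Nat.prime_iff_prime_int.mp hp).irreducible
  refine (hmax.eq_of_le ?_ ?_).symm
  · intro h1
    apply v.isPrime.ne_top
    rw [Ideal.eq_top_iff_one] at h1 ⊢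
    have h2 : (algebraMap ℤ (𝓞 K)) 1 ∈ v.asIdeal := h1
    simpa using h2
  · rw [Ideal.span_singleton_le_iff_mem]
    change algebraMap ℤ (𝓞 K) (p : ℤ) ∈ v.asIdeal
    rw [map_natCast]
    exact h

/-- the Galois group acts transitively on the places above a prime number -/
lemma exists_pl {v w : HeightOneSpectrum (𝓞 K)} {p : ℕ} (hp : p.Prime)
    (hv : (p : 𝓞 K) ∈ v.asIdeal) (hw : (p : 𝓞 K) ∈ w.asIdeal) : ∃ τ : K ≃ₐ[ℚ] K, pl τ v = w := by
  have hv' := v.isPrime
  have hw' := w.isPrime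
  obtain ⟨g, hg⟩ := Algebra.IsInvariant.exists_smul_of_under_eq ℤ (𝓞 K) (K ≃ₐ[ℚ] K)
    v.asIdeal w.asIdeal (by rw [under_eq_span hp hv, under_eq_span hp hw])
  refine ⟨g, ?_⟩
  apply HeightOneSpectrum.ext
  rw [hg]
  ext a
  rw [mem_pl, Ideal.mem_pointwise_smul_iff_inv_smul_mem]
  exact Iff.rfl

end

end Pool.Agent.Y719.NG
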