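import Pool.Agent.Y773.AB.Cheb

/-!
# Closed sets of the absolute Galois group which contain almost all Frobenius elements
-/

set_option autoImplicit false

namespace Pool.Agent.Y719.NG

open NumberField Filter Topology IsDedekindDomain Pool.Agent.W401.Cheb

variable {K : Type} [Field K] [NumberField K]

/-- every coset of an open normal subgroup contains a conjugate of a Frobenius element -/
theorem exists_frobK (U : OpenNormalSubgroup (GK K)) (S : Set (HeightOneSpectrum (𝓞 K)))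
    (hS : S.Finite) (g : GK K) :
    ∃ v ∉ S, ∃ σ, IsFrob v σ ∧ ∃ τ : GK K, τ * σ * τ⁻¹ * g⁻¹ ∈ U.toSubgroup := by
  by_contra hcon
  push Not at hcon
  have hUo : IsOpen (U.toSubgroup : Set (GK K)) := U.isOpen'
  have hn : U.toSubgroup.Normal := U.isNormal'
  have hfin : Finite (GK K ⧸ U.toSubgroup) := Subgroup.quotient_finite_of_isOpen _ hUo
  set C : Set (GK K) := {x | ∃ τ : GK K, τ * x * τ⁻¹ * g⁻¹ ∈ U.toSubgroup} with hC
  have key := Pool.Agent.Y773.AB.chebK K U.toSubgroup hUo C (by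
    rintro x ⟨τ, hτ⟩ y
    refine ⟨τ * y⁻¹, ?_⟩
    have : τ * y⁻¹ * (y * x * y⁻¹) * (τ * y⁻¹)⁻¹ * g⁻¹ = τ * x * τ⁻¹ * g⁻¹ := by group
    rwa [this]) (by
    rintro x ⟨τ, hτ⟩ u hu
    refine ⟨τ, ?_⟩
    have h1 : (τ * x) * u * (τ * x)⁻¹ ∈ U.toSubgroup := hn.conj_mem u hu (τ * x)
    have h2 := U.toSubgroup.mul_mem h1 hτ
    have e : τ * x * u * (τ * x)⁻¹ * (τ * x * τ⁻¹ * g⁻¹) = τ * (x * u) * τ⁻¹ * g⁻¹ := by group
    rwa [e] at h2)
  have hc : (0 : ℝ) < (Nat.card (GK K ⧸ U.toSubgroup) : ℝ) := by exact_mod_cast Nat.card_pos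
  have h1 : g ∈ C := ⟨1, by simp⟩
  have h2 : 1 ≤ ((QuotientGroup.mk : GK K → GK K ⧸ U.toSubgroup) '' C).ncard :=
    (Set.ncard_pos (Set.toFinite _)).2 ⟨_, g, h1, rfl⟩
  have h3 : (1 : ℝ) ≤ (((QuotientGroup.mk : GK K → GK K ⧸ U.toSubgroup) '' C).ncard : ℝ) := by
    exact_mod_cast h2
  have h4 : (0 : ℝ) < (((QuotientGroup.mk : GK K → GK K ⧸ U.toSubgroup) '' C).ncard : ℝ) /
      (Nat.card (GK K ⧸ U.toSubgroup) : ℝ) := by positivity
  have hsub : ∀ v : HeightOneSpectrum (𝓞 K), (∃ σ ∈ C, IsFrob v σ) → v ∈ S := by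
    rintro v ⟨σ, ⟨τ, hτ⟩, hσ⟩
    by_contra hv
    exact hcon v hv σ hσ τ hτ
  -- the density is zero
  have h5 : Tendsto (dens fun v : HeightOneSpectrum (𝓞 K) => ∃ σ ∈ C, IsFrob v σ) atTop (𝓝 0) := by
    have h6 : Tendsto (fun N : ℕ => (S.ncard : ℝ) / (Nat.primeCounting N : ℝ)) atTop (𝓝 0) :=
      tendsto_const_nhds.div_atTop
        (tendsto_natCast_atTop_atTop.comp Nat.tendsto_primeCounting)
    refine squeeze_zero (fun N => ?_) (fun N => ?_) h6
    · unfold dens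
      positivity
    · unfold dens
      refine div_le_div_of_nonneg_right ?_ (Nat.cast_nonneg _)
      have hle : Nat.card {v : HeightOneSpectrum (𝓞 K) //
          Ideal.absNorm v.asIdeal ≤ N ∧ ∃ σ ∈ C, IsFrob v σ} ≤ S.ncard := by
        change Nat.card ({v : HeightOneSpectrum (𝓞 K) |
          Ideal.absNorm v.asIdeal ≤ N ∧ ∃ σ ∈ C, IsFrob v σ} : Set _) ≤ _
        rw [Nat.card_coe_set_eq]
        exact Set.ncard_le_ncard (fun v hv => hsub v hv.2) hS
      exact_mod_cast hle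
  have h7 := tendsto_nhds_unique key h5
  linarith

/-- a closed set, invariant under conjugation, with almost all Frobenius elements is everything -/
theorem closed_univK (C : Set (GK K)) (hC : IsClosed C)
    (hconj : ∀ σ ∈ C, ∀ τ : GK K, τ * σ * τ⁻¹ ∈ C) (S : Set (HeightOneSpectrum (𝓞 K)))
    (hS : S.Finite) (h : ∀ v ∉ S, ∀ σ, IsFrob v σ → σ ∈ C) (g : GK K) : g ∈ C := by
  by_contra hg
  have h1 : (fun x => x * g) ⁻¹' Cᶜ ∈ 𝓝 (1 : GK K) := by
    refine (continuous_mul_right g).continuousAt.preimage_mem_nhds ?_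
    rw [one_mul]
    exact hC.isOpen_compl.mem_nhds hg
  obtain ⟨U, hU⟩ := ProfiniteGrp.exist_openNormalSubgroup_sub_open_nhds_of_one
    (isOpen_interior (s := (fun x => x * g) ⁻¹' Cᶜ)) (mem_interior_iff_mem_nhds.2 h1)
  obtain ⟨v, hv, σ, hσ, τ, hτ⟩ := exists_frobK U S hS g
  have h2 := interior_subset (hU hτ)
  rw [Set.mem_preimage, inv_mul_cancel_right] at h2
  exact h2 (hconj σ (h v hv σ hσ) τ)

end Pool.Agent.Y719.NG
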