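import Pool.Agent.Y719.NG.Main

/-!
# Representations with the same modulus
-/

set_option autoImplicit false

namespace Pool.Agent.Y719.NG

open Filter Topology MeasureTheory Finset Polynomial NumberField IsDedekindDomain
  Pool.Agent.H921R2.TatePole
open Pool.Agent.Y774.MD (Concentrated)
open Pool.Agent.Y719.EL.N
open Pool.Agent.W401.Cheb (GK IsFrob IsInert)

section

variable {K : Type} [Field K] [NumberField K] {k : Type} [Field k]

/-- the places above a finite set of prime numbers -/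
def bad (K : Type) [Field K] [NumberField K] (S : Finset ℕ) : Set (HeightOneSpectrum (𝓞 K)) :=
  {v | ∃ p ∈ S, (p : 𝓞 K) ∈ v.asIdeal}

lemma bad_finite {S : Finset ℕ} (hS : ∀ p ∈ S, p.Prime) : (bad K S).Finite := by
  have h1 : bad K S = ⋃ p ∈ S, {v : HeightOneSpectrum (𝓞 K) | (p : 𝓞 K) ∈ v.asIdeal} := by
    ext v
    simp [bad]
  rw [h1]
  refine Set.Finite.biUnion S.finite_toSet fun p hp => ?_
  have hp' := hS p hp
  have h2 : {v : HeightOneSpectrum (𝓞 K) | (p : 𝓞 K) ∈ v.asIdeal} =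
      Set.range (fun v : {v : HeightOneSpectrum (𝓞 K) // below v = ⟨p, hp'⟩} => v.1) := by
    ext v
    constructor
    · intro hv
      exact ⟨⟨v, (below_of_mem hp').2 hv⟩, rfl⟩
    · rintro ⟨v, rfl⟩
      exact (below_of_mem hp').1 v.2
  rw [h2]
  exact Set.finite_range _

/-- the data of the Euler factors -/
structure Fac {n : ℕ} (S : Finset ℕ) (w : ℝ) (ι : k →+* ℂ) (ρ : GK K →* GL (Fin n) k)
    (P : HeightOneSpectrum (𝓞 K) → ℂ[X]) : Prop where
  bad : ∀ v ∈ bad K S, P v = 1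
  att : ∀ v ∉ NG.bad K S, Att ρ ι v (P v)
  weight : ∀ v, ∀ z : ℂ, (P v).eval z = 0 → (nm v : ℝ) ^ (-(w / 2)) ≤ ‖z‖

lemma charpolyRev_coeff_zero {n : ℕ} (M : Matrix (Fin n) (Fin n) k) : M.charpolyRev.coeff 0 = 1 := by
  rw [coeff_zero_eq_eval_zero, Matrix.eval_charpolyRev]

lemma charpolyRev_deg {n : ℕ} (M : Matrix (Fin n) (Fin n) k) : M.charpolyRev.natDegree ≤ n := by
  rw [← Matrix.reverse_charpoly]
  refine (Polynomial.reverse_natDegree_le _).trans ?_
  rw [Matrix.charpoly_natDegree_eq_dim, Fintype.card_fin]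

lemma Fac.typ {n : ℕ} {S : Finset ℕ} {w : ℝ} {ι : k →+* ℂ} {ρ : GK K →* GL (Fin n) k}
    {P : HeightOneSpectrum (𝓞 K) → ℂ[X]} (h : Fac S w ι ρ P) : Typ (nz w P) n := by
  refine typ_weight (fun v => ?_) (fun v => ?_) h.weight
  · by_cases hv : v ∈ NG.bad K S
    · rw [h.bad v hv]
      simp
    · obtain ⟨g, hg⟩ := Pool.Agent.W401.Frob.exists_frob v
      rw [← (h.att v hv).2 g hg, coeff_map, charpolyRev_coeff_zero, map_one]
  · by_cases hv : v ∈ NG.bad K S
    · rw [h.bad v hv]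
      simp
    · obtain ⟨g, hg⟩ := Pool.Agent.W401.Frob.exists_frob v
      rw [← (h.att v hv).2 g hg]
      exact natDegree_map_le.trans (charpolyRev_deg _)

lemma charpolyRev_conj {n : ℕ} (Q : GL (Fin n) k) (M : Matrix (Fin n) (Fin n) k) :
    ((Q : Matrix (Fin n) (Fin n) k) * M * ((Q⁻¹ : GL (Fin n) k) : Matrix (Fin n) (Fin n) k)).charpolyRev =
      M.charpolyRev := by
  rw [← Matrix.reverse_charpoly, ← Matrix.reverse_charpoly, Matrix.coe_units_inv,
    Matrix.charpoly_units_conj]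

lemma bad_pl {S : Finset ℕ} (τ : K ≃ₐ[ℚ] K) (v : HeightOneSpectrum (𝓞 K)) :
    pl τ v ∈ bad K S ↔ v ∈ bad K S := by
  unfold bad
  simp only [Set.mem_ofPred_eq, natCast_mem_pl]

variable [IsGalois ℚ K]

/-- conjugate representations have the same Euler products -/
lemma LS_eq_of_conj {n : ℕ} {S : Finset ℕ} {w w' : ℝ} {ι : k →+* ℂ} {ρ R : GK K →* GL (Fin n) k}
    {P P' : HeightOneSpectrum (𝓞 K) → ℂ[X]} (h : Fac S w ι ρ P) (h' : Fac S w' ι R P')
    {σ : AlgebraicClosure K ≃+* AlgebraicClosure K} {Q : GL (Fin n) k}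
    (hQ : ∀ g, R (cj σ g) = Q * ρ g * Q⁻¹) (s : ℂ) :
    LS P (fun _ => 1) s = LS P' (fun _ => 1) s := by
  have hP : ∀ v, P v = P' (pl (rs σ) v) := by
    intro v
    by_cases hv : v ∈ NG.bad K S
    · rw [h.bad v hv, h'.bad _ ((bad_pl _ _).2 hv)]
    · obtain ⟨g, hg⟩ := Pool.Agent.W401.Frob.exists_frob v
      rw [← (h.att v hv).2 g hg, ← (h'.att _ (fun h1 => hv ((bad_pl _ _).1 h1))).2 _ (frob_cj σ hg)]
      congr 1
      rw [← map_inv]
      unfold mt
      rw [hQ, Units.val_mul, Units.val_mul]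
      exact (charpolyRev_conj _ _).symm
  let e : HeightOneSpectrum (𝓞 K) ≃ HeightOneSpectrum (𝓞 K) :=
    { toFun := pl (rs σ)
      invFun := pl (rs σ)⁻¹
      left_inv := fun v => by rw [pl_pl, inv_mul_cancel, pl_one]
      right_inv := fun v => by rw [pl_pl, mul_inv_cancel, pl_one] }
  unfold LS
  refine Eq.trans ?_ (Equiv.tprod_eq e fun v => ((P' v).eval ((1 : ℂ) * (nm v : ℂ) ^ (-s)))⁻¹)
  refine tprod_congr fun v => ?_
  rw [hP v]
  change _ = ((P' (pl (rs σ) v)).eval (1 * (nm (pl (rs σ) v) : ℂ) ^ (-s)))⁻¹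
  rw [nm_pl]

variable [CharZero k] [TopologicalSpace k] [IsTopologicalRing k] [T1Space k]

/-- **Two irreducible representations.** -/
theorem two {n : ℕ} {S : Finset ℕ} (hS : ∀ p ∈ S, p.Prime) {w : ℝ} {ι : k →+* ℂ}
    {ρ R : GK K →* GL (Fin n) k} {P P' : HeightOneSpectrum (𝓞 K) → ℂ[X]} (h : Fac S w ι ρ P)
    (h' : Fac S w ι R P') (hρ : Continuous ρ) (hR : Continuous R) (hi : Irr ρ) (hi' : SS R) :
    List.TFAE
      [∃ σ : AlgebraicClosure K ≃+* AlgebraicClosure K, ∃ Q : GL (Fin n) k,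
          ∀ g, R (cj σ g) = Q * ρ g * Q⁻¹,
       ∀ s, LS P (fun _ => 1) s = LS P' (fun _ => 1) s,
       ∀ᵐ τ : ℝ, eA w P (fun _ => 1) τ = eA w P' (fun _ => 1) τ,
       Concentrated fun τ => Real.log (eA w P (fun _ => 1) τ) -
          Real.log (eA w P' (fun _ => 1) τ)] := by
  tfae_have 1 → 2 := by
    rintro ⟨σ, Q, hQ⟩ s
    exact LS_eq_of_conj h h' hQ s
  tfae_have 2 → 3 := by
    intro h1
    refine Eventually.of_forall fun τ => ?_
    unfold eA
    congr 1
    funext σ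
    rw [h1]
  tfae_have 3 → 4 := by
    intro h1
    refine Pool.Agent.Y719.EL.M.concentrated_of_ae ?_
    filter_upwards [h1] with τ hτ
    rw [hτ, sub_self]
  tfae_have 4 → 1 := by
    intro hc
    obtain ⟨j, -, σ, H, hH0, hH⟩ := one_modulus (κ := Unit) (P₀ := P) (P := fun _ => P')
      (m := fun _ => 1) (w := w) (N := fun _ => n) (n := fun _ => n) h.typ (fun _ => h'.typ)
      (by
        refine cast (congrArg Concentrated ?_) hc
        funext τ
        simp) ι hρ hi (R := fun _ => R) (fun _ => hR) (fun _ => hi') (bad K S) (bad_finite hS)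
      (fun τ v hv => (bad_pl τ v).1 hv) h.att (fun _ => h'.att)
    obtain ⟨Q, hQ⟩ := conj_of_intertwiner (ρ := ρ) (R := R.comp (cj σ)) hH0 hH
    exact ⟨σ, Q, hQ⟩
  tfae_finish

end

end Pool.Agent.Y719.NG
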