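import Pool.Agent.Y719.NG.Mod
import Pool.Agent.Y719.NG.Dens

/-!
# One modulus decides up to Galois conjugation
-/

set_option autoImplicit false

namespace Pool.Agent.Y719.NG

open Filter Topology MeasureTheory Finset Polynomial NumberField IsDedekindDomain
  Pool.Agent.H921R2.TatePole
open Pool.Agent.Y774.MD (Concentrated)
open Pool.Agent.Y719.EL.N
open Pool.Agent.W401.Cheb (GK IsFrob IsInert)

section

variable {K : Type} [Field K] [NumberField K] {k : Type} [Field k]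

/-- `ρ` is unramified at `v`, and `P` is the characteristic polynomial `det(1 - X ρ(Frob))` of the
geometric Frobenius elements at `v` -/
def Att {n : ℕ} (ρ : GK K →* GL (Fin n) k) (ι : k →+* ℂ) (v : HeightOneSpectrum (𝓞 K))
    (P : ℂ[X]) : Prop :=
  (∀ g, IsInert v g → ρ g = 1) ∧ ∀ g, IsFrob v g → (mt ρ g⁻¹).charpolyRev.map ι = P

lemma Att.coeff_one {n : ℕ} {ρ : GK K →* GL (Fin n) k} {ι : k →+* ℂ}
    {v : HeightOneSpectrum (𝓞 K)} {P : ℂ[X]} (h : Att ρ ι v P) {g : GK K} (hg : IsFrob v g) :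
    ι (mt ρ g⁻¹).trace = - P.coeff 1 := by
  rw [← h.2 g hg, coeff_map, Matrix.coeff_charpolyRev_eq_neg_trace, map_neg, neg_neg]

variable [IsGalois ℚ K]

lemma Irr.cj {n : ℕ} {ρ : GK K →* GL (Fin n) k} (h : Irr ρ)
    (σ : AlgebraicClosure K ≃+* AlgebraicClosure K) : Irr (ρ.comp (NG.cj σ)) := by
  refine ⟨h.1, fun W hW => h.2 W fun g x hx => ?_⟩
  obtain ⟨g', rfl⟩ := cj_surjective σ g
  exact hW g' x hx

lemma SS.cj {n : ℕ} {ρ : GK K →* GL (Fin n) k} (h : SS ρ)
    (σ : AlgebraicClosure K ≃+* AlgebraicClosure K) : SS (ρ.comp (NG.cj σ)) := by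
  intro W hW
  obtain ⟨W', hW', hc⟩ := h W fun g x hx => by
    obtain ⟨g', rfl⟩ := cj_surjective σ g
    exact hW g' x hx
  exact ⟨W', fun g x hx => hW' (NG.cj σ g) x hx, hc⟩

omit [NumberField K] [IsGalois ℚ K] in
lemma trace_conj {n : ℕ} (ρ : GK K →* GL (Fin n) k) (g h : GK K) :
    (mt ρ (h * g * h⁻¹)).trace = (mt ρ g).trace := by
  rw [mt_mul, mt_mul, Matrix.trace_mul_comm, ← mul_assoc, ← mt_mul, inv_mul_cancel, mt_one, one_mul]

variable [CharZero k] [TopologicalSpace k] [IsTopologicalRing k] [T1Space k]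
  {κ : Type} [Fintype κ] {n₀ N₀ : ℕ} {n N : κ → ℕ}

omit [IsGalois ℚ K] [CharZero k] [T1Space k] [NumberField K] in
lemma continuous_trace {n : ℕ} {ρ : GK K →* GL (Fin n) k} (hρ : Continuous ρ) :
    Continuous fun g => (mt ρ g).trace :=
  (Units.continuous_val.comp hρ).matrix_trace

/-- **One modulus.** -/
theorem one_modulus {w : ℝ} {P₀ : HeightOneSpectrum (𝓞 K) → ℂ[X]}
    {P : κ → HeightOneSpectrum (𝓞 K) → ℂ[X]} {m : κ → ℤ} (h₀ : Typ (nz w P₀) N₀)
    (h : ∀ j, Typ (nz w (P j)) (N j))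
    (hc : Concentrated fun τ => Real.log (eA w P₀ (fun _ => 1) τ) -
      ∑ j, m j * Real.log (eA w (P j) (fun _ => 1) τ))
    (ι : k →+* ℂ) {ρ : GK K →* GL (Fin n₀) k} (hρ : Continuous ρ) (hi : Irr ρ)
    {R : ∀ j, GK K →* GL (Fin (n j)) k} (hR : ∀ j, Continuous (R j)) (hs : ∀ j, SS (R j))
    (S : Set (HeightOneSpectrum (𝓞 K))) (hS : S.Finite) (hSt : ∀ τ, ∀ v, pl τ v ∈ S → v ∈ S)
    (ha₀ : ∀ v ∉ S, Att ρ ι v (P₀ v)) (ha : ∀ j, ∀ v ∉ S, Att (R j) ι v (P j v)) :
    ∃ j, 0 < m j ∧ ∃ σ : AlgebraicClosure K ≃+* AlgebraicClosure K,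
      ∃ H : Matrix (Fin (n j)) (Fin n₀) k, (∀ x, H.mulVec x = 0 → x = 0) ∧
        ∀ g, mt (R j) (cj σ g) * H = H * mt ρ g := by
  classical
  choose lft hlft using fun τ : K ≃ₐ[ℚ] K => exists_rs τ
  -- the trace function
  set F : GK K → k := fun g => ∑ τ : K ≃ₐ[ℚ] K, ((mt ρ (cj (lft τ) g)).trace -
    ∑ j, (m j : k) * (mt (R j) (cj (lft τ) g)).trace) with hF
  have hFc : Continuous F := by
    refine continuous_finset_sum _ fun τ _ => ?_
    refine ((continuous_trace hρ).comp (cj_continuous _)).sub ?_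
    refine continuous_finset_sum _ fun j _ => ?_
    exact continuous_const.mul ((continuous_trace (hR j)).comp (cj_continuous _))
  have hFconj : ∀ g h, F (h * g * h⁻¹) = F g := by
    intro g h
    simp only [hF]
    refine sum_congr rfl fun τ _ => ?_
    have h1 : ∀ {n : ℕ} (ρ : GK K →* GL (Fin n) k),
        (mt ρ (cj (lft τ) (h * g * h⁻¹))).trace = (mt ρ (cj (lft τ) g)).trace := by
      intro n ρ
      rw [map_mul, map_mul, map_inv]
      exact trace_conj ρ _ _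
    rw [h1 ρ]
    congr 1
    exact sum_congr rfl fun j _ => by rw [h1]
  have hzero : ∀ g, F g⁻¹ = 0 := by
    intro g
    refine closed_univK {g | F g⁻¹ = 0} ?_ ?_ S hS ?_ g
    · have h1 : IsClosed ((fun g => F g⁻¹) ⁻¹' {0}) :=
        isClosed_singleton.preimage (hFc.comp continuous_inv)
      exact h1
    · intro g hg τ
      change F (τ * g * τ⁻¹)⁻¹ = 0
      have h1 : (τ * g * τ⁻¹)⁻¹ = τ * g⁻¹ * τ⁻¹ := by group
      rw [h1, hFconj]
      exact hg
    · intro v hv g hg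
      change F g⁻¹ = 0
      apply ι.injective
      rw [map_zero]
      have h1 := orbit h₀ h hc v
      have h2 : ∀ τ : K ≃ₐ[ℚ] K, pl τ v ∉ S := fun τ hτ => hv (hSt τ v hτ)
      have h3 : ∀ τ : K ≃ₐ[ℚ] K, IsFrob (pl τ v) (cj (lft τ) g) := by
        intro τ
        have := frob_cj (lft τ) hg
        rwa [hlft] at this
      have h4 : ι (F g⁻¹) = - ∑ τ : K ≃ₐ[ℚ] K, ((P₀ (pl τ v)).coeff 1 -
          ∑ j, (m j : ℂ) * (P j (pl τ v)).coeff 1) := by
        simp only [hF]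
        rw [map_sum, ← sum_neg_distrib]
        refine sum_congr rfl fun τ _ => ?_
        rw [map_sub, map_sum, map_inv]
        rw [(ha₀ _ (h2 τ)).coeff_one (h3 τ), neg_sub, sub_eq_neg_add, neg_add_eq_sub]
        have h5 : ∑ j, ι ((m j : k) * (mt (R j) (cj (lft τ) g)⁻¹).trace) =
            - ∑ j, (m j : ℂ) * (P j (pl τ v)).coeff 1 := by
          rw [← sum_neg_distrib]
          refine sum_congr rfl fun j _ => ?_
          rw [map_mul, map_intCast, (ha j _ (h2 τ)).coeff_one (h3 τ)]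
          ring
        rw [h5]
        ring
      rw [h4, h1, neg_zero]
  have hzero' : ∀ g, F g = 0 := fun g => by
    have := hzero g⁻¹
    rwa [inv_inv] at this
  -- the representations
  let J : Type := (K ≃ₐ[ℚ] K) ⊕ (Σ j : κ, Fin (-m j).toNat × (K ≃ₐ[ℚ] K))
  let L : Type := Σ j : κ, Fin (m j).toNat × (K ≃ₐ[ℚ] K)
  let nJ : J → ℕ := Sum.elim (fun _ => n₀) (fun x => n x.1)
  let ρJ : ∀ j : J, GK K →* GL (Fin (nJ j)) k := fun j => match j with
    | Sum.inl τ => ρ.comp (cj (lft τ))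
    | Sum.inr x => (R x.1).comp (cj (lft x.2.2))
  let ρL : ∀ l : L, GK K →* GL (Fin (n l.1)) k := fun l => (R l.1).comp (cj (lft l.2.2))
  have htr : ∀ g, ∑ j, (mt (ρJ j) g).trace = ∑ l, (mt (ρL l) g).trace := by
    intro g
    have e1 : ∑ j, (mt (ρJ j) g).trace = ∑ τ : K ≃ₐ[ℚ] K, (mt ρ (cj (lft τ) g)).trace +
        ∑ j, ((-m j).toNat : k) * ∑ τ : K ≃ₐ[ℚ] K, (mt (R j) (cj (lft τ) g)).trace := by
      rw [Fintype.sum_sum_type]
      congr 1
      rw [Fintype.sum_sigma]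
      refine sum_congr rfl fun j _ => ?_
      rw [Fintype.sum_prod_type]
      change ∑ _x : Fin (-m j).toNat, ∑ τ : K ≃ₐ[ℚ] K, (mt (R j) (cj (lft τ) g)).trace = _
      rw [sum_const, card_univ, Fintype.card_fin, nsmul_eq_mul]
    have e2 : ∑ l, (mt (ρL l) g).trace =
        ∑ j, ((m j).toNat : k) * ∑ τ : K ≃ₐ[ℚ] K, (mt (R j) (cj (lft τ) g)).trace := by
      rw [Fintype.sum_sigma]
      refine sum_congr rfl fun j _ => ?_
      rw [Fintype.sum_prod_type]
      change ∑ _x : Fin (m j).toNat, ∑ τ : K ≃ₐ[ℚ] K, (mt (R j) (cj (lft τ) g)).trace = _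
      rw [sum_const, card_univ, Fintype.card_fin, nsmul_eq_mul]
    have e3 := hzero' g
    simp only [hF] at e3
    rw [sum_sub_distrib, Finset.sum_comm, sub_eq_zero] at e3
    rw [e1, e2, e3, ← sum_add_distrib]
    refine sum_congr rfl fun j _ => ?_
    rw [← mul_sum, ← add_mul]
    congr 1
    have h7 : m j + ((-m j).toNat : ℤ) = ((m j).toNat : ℤ) := by omega
    have h8 := congrArg (fun z : ℤ => (z : k)) h7
    push_cast at h8
    exact h8
  obtain ⟨l, H, hH0, hH⟩ := exists_intertwiner ρJ ρL (Sum.inl 1) (hi.cj (lft 1))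
    (fun l => (hs l.1).cj (lft l.2.2)) htr
  refine ⟨l.1, ?_, (lft 1).symm.trans (lft l.2.2), H, hH0, fun g => ?_⟩
  · have h1 : 0 < (m l.1).toNat := Fin.pos l.2.1
    omega
  · obtain ⟨g', rfl⟩ := cj_surjective (lft 1) g
    have h1 := hH g'
    have h2 : cj ((lft 1).symm.trans (lft l.2.2)) (cj (lft 1) g') = cj (lft l.2.2) g' := by
      apply AlgEquiv.ext
      intro x
      simp only [cj_apply, RingEquiv.trans_apply, RingEquiv.symm_trans_apply, RingEquiv.symm_symm,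
        RingEquiv.symm_apply_apply]
    rw [h2]
    exact h1

end

end Pool.Agent.Y719.NG
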