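import Pool.Agent.Y719.EL.NF10
import Pool.Agent.Y719.NG.Act

/-!
# One modulus: the sums over the Galois orbits of a place
-/

set_option autoImplicit false

namespace Pool.Agent.Y719.NG

open Filter Topology MeasureTheory Finset Polynomial NumberField IsDedekindDomain
  Pool.Agent.H921R2.TatePole
open Pool.Agent.Y774.MD (IsEuler fac LQ eabs Concentrated Continues GoodAt GP GP_eval fac_GP
  coeff_zero_GP nm_pos deg_le)
open Pool.Agent.TH958.BV (LFun localFactor)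
open Pool.Agent.Y719.EL.N

variable {K : Type} [Field K] [NumberField K]

variable {κ : Type} [Fintype κ] {B₀ : HeightOneSpectrum (𝓞 K) → ℂ[X]}
  {B : κ → HeightOneSpectrum (𝓞 K) → ℂ[X]} {N₀ : ℕ} {n : κ → ℕ} {m : κ → ℤ}

omit [NumberField K] in
lemma tws_one (B : HeightOneSpectrum (𝓞 K) → ℂ[X]) : tws (fun _ => 1) B = B := by
  funext v
  unfold tws
  simp

/-- the identity of the Euler factors at the prime numbers -/
theorem GP_int (h₀ : Typ B₀ N₀) (h : ∀ k, Typ (B k) (n k))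
    (hc : Concentrated fun τ => Real.log (edgeAbs B₀ τ) - ∑ k, m k * Real.log (edgeAbs (B k) τ))
    {q : ℕ} (hq : q.Prime) :
    GP (fun v => B₀ v * ∏ k, B k v ^ (-m k).toNat) 0 q =
      GP (fun v => ∏ k, B k v ^ (m k).toNat) 0 q := by
  classical
  have hzp : ∀ (x : ℂ) (a : ℤ), x ≠ 0 → x ^ a * x ^ (-a).toNat = x ^ a.toNat := by
    intro x a hx
    rw [← zpow_natCast, ← zpow_natCast, ← zpow_add₀ hx]
    congr 1
    omega
  refine Pool.Agent.Y719.EL.M.eq_of_eval hq fun s hs => ?_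
  have hc' : Concentrated (Pool.Agent.Y774.MD.cmp (GP B₀ 0) (fun k => GP (B k) 0) m
      (fun _ => 0)) := by
    have h1 := cmp_eq (t := fun _ => (0 : ℝ)) (m := m) (ψ := fun _ => (1 : ℂ))
      (fun v => by simp) h₀ h
    simp only [tws_one, add_zero] at h1
    rw [← h1]
    exact hc
  have h1 := Pool.Agent.Y774.MD.factors h₀.isEuler (fun k => (h k).isEuler) hc' hq
    (h₀.goodAt hq) (fun k => (h k).goodAt hq) hs
  have hgne : ∀ {B : HeightOneSpectrum (𝓞 K) → ℂ[X]} {N : ℕ}, Typ B N → ∀ {s : ℂ},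
      1 ≤ s.re → (GP B 0 q).eval ((q : ℂ) ^ (-s)) ≠ 0 := by
    intro B N hB s hs h0
    have h2 := (hB.goodAt hq).2 _ h0
    rw [Complex.norm_natCast_cpow_of_pos hq.pos, one_div, ← Real.rpow_neg_one] at h2
    have h3 : (1 : ℝ) ≤ q := by exact_mod_cast hq.one_le
    have h4 : (q : ℝ) ^ (-s).re ≤ (q : ℝ) ^ (-1 : ℝ) := by
      refine Real.rpow_le_rpow_of_exponent_le h3 ?_
      rw [Complex.neg_re]
      linarith
    linarith
  set X₀ := (GP B₀ 0 q).eval ((q : ℂ) ^ (-s)) with hX₀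
  set Y : κ → ℂ := fun k => (GP (B k) 0 q).eval ((q : ℂ) ^ (-s)) with hY
  have hY0 : ∀ k, Y k ≠ 0 := fun k => hgne (h k) hs
  have h2 : X₀ = ∏ k, Y k ^ m k := by
    have h3 : X₀⁻¹ = ∏ k, ((Y k)⁻¹) ^ m k := by
      have h5 := h1
      simp only [Complex.ofReal_zero, zero_mul, add_zero] at h5
      exact h5
    have h4 := congrArg (fun x => x⁻¹) h3
    simp only [inv_inv] at h4
    rw [h4, ← prod_inv_distrib]
    refine prod_congr rfl fun k _ => ?_
    rw [inv_zpow, inv_inv]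
  have hYe : ∀ (B : HeightOneSpectrum (𝓞 K) → ℂ[X]), (GP B 0 q).eval ((q : ℂ) ^ (-s)) =
      ∏ v : {v : HeightOneSpectrum (𝓞 K) // below v = ⟨q, hq⟩},
        (B v.1).eval (((q : ℂ) ^ (-s)) ^ deg v.1) := by
    intro B
    rw [GP_eq _ hq, eval_prod]
    exact prod_congr rfl fun v _ => expand_eval _ _ _
  have e1 : (GP (fun v => B₀ v * ∏ k, B k v ^ (-m k).toNat) 0 q).eval ((q : ℂ) ^ (-s)) =
      X₀ * ∏ k, Y k ^ (-m k).toNat := by
    rw [hYe, hX₀, hYe]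
    simp_rw [hY, hYe, eval_mul, eval_prod, eval_pow]
    rw [prod_mul_distrib]
    congr 1
    rw [Finset.prod_comm]
    exact prod_congr rfl fun k _ => prod_pow _ _ _
  have e2 : (GP (fun v => ∏ k, B k v ^ (m k).toNat) 0 q).eval ((q : ℂ) ^ (-s)) =
      ∏ k, Y k ^ (m k).toNat := by
    rw [hYe]
    simp_rw [hY, hYe, eval_prod, eval_pow]
    rw [Finset.prod_comm]
    exact prod_congr rfl fun k _ => prod_pow _ _ _
  rw [e1, e2, h2, ← prod_mul_distrib]
  exact prod_congr rfl fun k _ => hzp _ _ (hY0 k)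

lemma coeff_one_pow {P : ℂ[X]} (h : P.coeff 0 = 1) (a : ℕ) : (P ^ a).coeff 0 = 1 ∧
    (P ^ a).coeff 1 = a * P.coeff 1 := by
  induction a with
  | zero => simp [coeff_one]
  | succ a ih =>
    rw [pow_succ, mul_coeff_zero, mul_coeff_one, ih.1, ih.2, h]
    push_cast
    constructor <;> ring

lemma below_of_mem {v : HeightOneSpectrum (𝓞 K)} {q : ℕ} (hq : q.Prime) :
    below v = ⟨q, hq⟩ ↔ (q : 𝓞 K) ∈ v.asIdeal := by
  rw [← Pool.Agent.Y774.MD.below_eq_iff hq]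
  exact Subtype.ext_iff

lemma nm_pl (τ : K ≃ₐ[ℚ] K) (v : HeightOneSpectrum (𝓞 K)) : nm (pl τ v) = nm v := absNorm_pl τ v

variable [IsGalois ℚ K]

lemma deg_const {q : ℕ} (hq : q.Prime)
    (v w : {v : HeightOneSpectrum (𝓞 K) // below v = ⟨q, hq⟩}) : deg v.1 = deg w.1 := by
  obtain ⟨τ, hτ⟩ := exists_pl hq ((below_of_mem hq).1 v.2) ((below_of_mem hq).1 w.2)
  have h1 := (below_val hq v).1
  have h2 := (below_val hq w).1
  rw [← hτ, nm_pl, h1] at h2
  have h3 := Nat.pow_right_injective hq.two_le h2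
  rw [hτ] at h3
  exact h3

/-- the sum over the places above a prime number -/
theorem sum_coeff (h₀ : Typ B₀ N₀) (h : ∀ k, Typ (B k) (n k))
    (hc : Concentrated fun τ => Real.log (edgeAbs B₀ τ) - ∑ k, m k * Real.log (edgeAbs (B k) τ))
    {q : ℕ} (hq : q.Prime) :
    ∑ v : {v : HeightOneSpectrum (𝓞 K) // below v = ⟨q, hq⟩},
      ((B₀ v.1).coeff 1 - ∑ k, (m k : ℂ) * (B k v.1).coeff 1) = 0 := by
  classical
  rcases isEmpty_or_nonempty {v : HeightOneSpectrum (𝓞 K) // below v = ⟨q, hq⟩} with he | ⟨⟨v₀⟩⟩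
  · exact Fintype.sum_empty _
  set f := deg v₀.1 with hf
  have hf0 : 0 < f := (below_val hq v₀).2
  have hdeg : ∀ v : {v : HeightOneSpectrum (𝓞 K) // below v = ⟨q, hq⟩}, deg v.1 = f :=
    fun v => deg_const hq v v₀
  have key := GP_int h₀ h hc hq
  rw [GP_eq _ hq, GP_eq _ hq] at key
  simp_rw [hdeg] at key
  have hP0 : ∀ v, ∀ e : κ → ℕ, (∏ k, B k v ^ e k).coeff 0 = 1 := by
    intro v e
    rw [coeff_zero_prod]
    exact prod_eq_one fun k _ => (coeff_one_pow ((h k).one v) _).1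
  have hP1 : ∀ v, ∀ e : κ → ℕ, (∏ k, B k v ^ e k).coeff 1 = ∑ k, (e k : ℂ) * (B k v).coeff 1 := by
    intro v e
    rw [coeff_one_prod _ _ fun k _ => (coeff_one_pow ((h k).one v) _).1]
    exact sum_congr rfl fun k _ => (coeff_one_pow ((h k).one v) _).2
  have hA0 : ∀ v, (B₀ v * ∏ k, B k v ^ (-m k).toNat).coeff 0 = 1 := by
    intro v
    rw [mul_coeff_zero, h₀.one v, hP0, one_mul]
  have h5 := coeff_prod_sub (univ : Finset {v : HeightOneSpectrum (𝓞 K) // below v = ⟨q, hq⟩})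
    (f := fun v => expand ℂ f (B₀ v.1 * ∏ k, B k v.1 ^ (-m k).toNat))
    (g := fun v => expand ℂ f (∏ k, B k v.1 ^ (m k).toNat)) hf0
    (fun v _ => by rw [coeff_expand hf0, if_pos (dvd_zero _), Nat.zero_div]; exact hA0 v.1)
    (fun v _ => by rw [coeff_expand hf0, if_pos (dvd_zero _), Nat.zero_div]; exact hP0 v.1 _)
    (fun v _ j hj => by
      rw [coeff_expand hf0, coeff_expand hf0]
      rcases Nat.eq_zero_or_pos j with hj0 | hj0
      · subst hj0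
        rw [if_pos (dvd_zero _), if_pos (dvd_zero _), Nat.zero_div, hA0, hP0]
      · have hnd : ¬ f ∣ j := Nat.not_dvd_of_pos_of_lt hj0 hj
        rw [if_neg hnd, if_neg hnd])
  rw [key, sub_self] at h5
  rw [h5.2]
  refine sum_congr rfl fun v _ => ?_
  rw [coeff_expand hf0, coeff_expand hf0, if_pos (dvd_refl _), if_pos (dvd_refl _),
    Nat.div_self hf0, mul_coeff_one, h₀.one v.1, hP0, hP1, hP1, one_mul, mul_one]
  have h6 : ∀ k, ((m k).toNat : ℂ) - ((-m k).toNat : ℂ) = (m k : ℂ) := by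
    intro k
    have h7 : ((m k).toNat : ℤ) - ((-m k).toNat : ℤ) = m k := by omega
    have h8 := congrArg (fun z : ℤ => (z : ℂ)) h7
    push_cast at h8
    exact h8
  have h9 : ∑ k, (m k : ℂ) * (B k v.1).coeff 1 =
      ∑ k, ((m k).toNat : ℂ) * (B k v.1).coeff 1 - ∑ k, ((-m k).toNat : ℂ) * (B k v.1).coeff 1 := by
    rw [← sum_sub_distrib]
    refine sum_congr rfl fun k _ => ?_
    rw [← sub_mul, h6]
  rw [h9]
  ring

/-- sums over orbits -/
lemma orbit_sum {d : HeightOneSpectrum (𝓞 K) → ℂ} {q : ℕ} (hq : q.Prime)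
    (hd : ∑ v : {v : HeightOneSpectrum (𝓞 K) // below v = ⟨q, hq⟩}, d v.1 = 0)
    (v : {v : HeightOneSpectrum (𝓞 K) // below v = ⟨q, hq⟩}) :
    ∑ τ : K ≃ₐ[ℚ] K, d (pl τ v.1) = 0 := by
  classical
  have hmem : ∀ (τ : K ≃ₐ[ℚ] K) (w : {v : HeightOneSpectrum (𝓞 K) // below v = ⟨q, hq⟩}),
      below (pl τ w.1) = ⟨q, hq⟩ := fun τ w =>
    (below_of_mem hq).2 ((natCast_mem_pl τ w.1 q).2 ((below_of_mem hq).1 w.2))
  have h1 : ∀ τ : K ≃ₐ[ℚ] K, ∑ w : {v : HeightOneSpectrum (𝓞 K) // below v = ⟨q, hq⟩},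
      d (pl τ w.1) = 0 := by
    intro τ
    let e : {v : HeightOneSpectrum (𝓞 K) // below v = ⟨q, hq⟩} ≃
        {v : HeightOneSpectrum (𝓞 K) // below v = ⟨q, hq⟩} :=
      { toFun := fun w => ⟨pl τ w.1, hmem τ w⟩
        invFun := fun w => ⟨pl τ⁻¹ w.1, hmem τ⁻¹ w⟩
        left_inv := fun w => by
          apply Subtype.ext
          change pl τ⁻¹ (pl τ w.1) = w.1
          rw [pl_pl, inv_mul_cancel, pl_one]
        right_inv := fun w => by
          apply Subtype.ext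
          change pl τ (pl τ⁻¹ w.1) = w.1
          rw [pl_pl, mul_inv_cancel, pl_one] }
    rw [← hd]
    exact Equiv.sum_comp e fun w => d w.1
  have h2 : ∀ w : {v : HeightOneSpectrum (𝓞 K) // below v = ⟨q, hq⟩},
      ∑ τ : K ≃ₐ[ℚ] K, d (pl τ w.1) = ∑ τ : K ≃ₐ[ℚ] K, d (pl τ v.1) := by
    intro w
    obtain ⟨τ₀, hτ₀⟩ := exists_pl hq ((below_of_mem hq).1 v.2) ((below_of_mem hq).1 w.2)
    rw [← hτ₀]
    simp_rw [pl_pl]
    exact Equiv.sum_comp (Equiv.mulRight τ₀) fun τ => d (pl τ v.1)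
  have h3 : ∑ w : {v : HeightOneSpectrum (𝓞 K) // below v = ⟨q, hq⟩},
      ∑ τ : K ≃ₐ[ℚ] K, d (pl τ w.1) = 0 := by
    rw [Finset.sum_comm]
    exact sum_eq_zero fun τ _ => h1 τ
  rw [sum_congr rfl fun w _ => h2 w, sum_const, card_univ, nsmul_eq_mul] at h3
  rcases mul_eq_zero.1 h3 with h4 | h4
  · exfalso
    have h5 : Fintype.card {v : HeightOneSpectrum (𝓞 K) // below v = ⟨q, hq⟩} = 0 := by
      exact_mod_cast h4
    rw [Fintype.card_eq_zero_iff] at h5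
    exact h5.elim v
  · exact h4

/-- **Sums over the orbits of places, in weight `w`.** -/
theorem orbit {w : ℝ} {P₀ : HeightOneSpectrum (𝓞 K) → ℂ[X]}
    {P : κ → HeightOneSpectrum (𝓞 K) → ℂ[X]} (h₀ : Typ (nz w P₀) N₀)
    (h : ∀ k, Typ (nz w (P k)) (n k))
    (hc : Concentrated fun τ => Real.log (eA w P₀ (fun _ => 1) τ) -
      ∑ k, m k * Real.log (eA w (P k) (fun _ => 1) τ)) (v : HeightOneSpectrum (𝓞 K)) :
    ∑ τ : K ≃ₐ[ℚ] K, ((P₀ (pl τ v)).coeff 1 - ∑ k, (m k : ℂ) * (P k (pl τ v)).coeff 1) = 0 := by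
  obtain ⟨q, hq, hv⟩ : ∃ (q : ℕ) (hq : q.Prime), below v = ⟨q, hq⟩ :=
    ⟨(below v : ℕ), (below v).2, rfl⟩
  have hc' : Concentrated fun τ => Real.log (edgeAbs (nz w P₀) τ) -
      ∑ k, m k * Real.log (edgeAbs (nz w (P k)) τ) := by
    simp only [eA_eq, tws_one] at hc
    exact hc
  have h1 := orbit_sum (d := fun v => (nz w P₀ v).coeff 1 -
    ∑ k, (m k : ℂ) * (nz w (P k) v).coeff 1) hq (sum_coeff h₀ h hc' hq) ⟨v, hv⟩
  simp only at h1
  have hnz : ∀ (P : HeightOneSpectrum (𝓞 K) → ℂ[X]) (u : HeightOneSpectrum (𝓞 K)),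
      (nz w P u).coeff 1 = (P u).coeff 1 * (((nm u : ℝ) ^ (-(w / 2)) : ℝ) : ℂ) := by
    intro P u
    unfold nz
    rw [comp_C_mul_X_coeff, pow_one]
  simp_rw [hnz, nm_pl] at h1
  have hne : ((((nm v : ℝ) ^ (-(w / 2)) : ℝ)) : ℂ) ≠ 0 := by
    exact_mod_cast (Real.rpow_pos_of_pos (nm_real_pos v) _).ne'
  have h2 : (∑ τ : K ≃ₐ[ℚ] K, ((P₀ (pl τ v)).coeff 1 -
      ∑ k, (m k : ℂ) * (P k (pl τ v)).coeff 1)) * (((nm v : ℝ) ^ (-(w / 2)) : ℝ) : ℂ) = 0 := by
    rw [sum_mul, ← h1]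
    refine sum_congr rfl fun τ _ => ?_
    rw [sub_mul, sum_mul]
    congr 1
    exact sum_congr rfl fun k _ => by ring
  exact (mul_eq_zero.1 h2).resolve_right hne

end Pool.Agent.Y719.NG
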