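import Pool.Agent.TH658.Eq.Newt

/-!
# Representations with a linear relation of the traces
-/

set_option autoImplicit false

namespace Pool.Agent.Y719.NG

open Polynomial

section nil

variable {k : Type} [Field k] [CharZero k] {J : Type} [Fintype J] [DecidableEq J]

lemma nilpotent_of_traces {n : J → ℕ} (Y : ∀ j, Matrix (Fin (n j)) (Fin (n j)) k)
    (h : ∀ m : ℕ, 0 < m → ∑ j, (Y j ^ m).trace = 0) : ∃ N : ℕ, 0 < N ∧ ∀ j, Y j ^ N = 0 := by
  have hpow : ∀ m : ℕ, (Matrix.blockDiagonal' Y) ^ m = Matrix.blockDiagonal' (fun j => Y j ^ m) := by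
    intro m
    exact (Matrix.blockDiagonal'_pow Y m).symm
  have h1 : (Matrix.blockDiagonal' Y).charpoly = (0 : Matrix (Σ j, Fin (n j)) (Σ j, Fin (n j)) k).charpoly := by
    refine Pool.Agent.TH658.Eq.charpoly_eq_of_traces _ _ fun m => ?_
    rcases Nat.eq_zero_or_pos m with hm | hm
    · subst hm
      rw [pow_zero, pow_zero]
    · rw [hpow, Matrix.trace_blockDiagonal', h m hm, zero_pow hm.ne', Matrix.trace_zero]
  have h2 := Matrix.aeval_self_charpoly (Matrix.blockDiagonal' Y)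
  rw [h1, Matrix.charpoly_zero, map_pow, aeval_X, hpow] at h2
  refine ⟨Fintype.card (Σ j, Fin (n j)) + 1, Nat.succ_pos _, fun j => ?_⟩
  have h3 : (fun j => Y j ^ Fintype.card (Σ j, Fin (n j))) = 0 := by
    apply Matrix.blockDiagonal'_injective
    rw [h2, Matrix.blockDiagonal'_zero]
  have h4 := congrFun h3 j
  simp only [Pi.zero_apply] at h4
  rw [pow_succ, h4, zero_mul]

end nil

section modules

variable {k : Type} [Field k] {A : Type} [Ring A] [Algebra k A] {n : ℕ}

/-- the module of an algebra homomorphism into matrices -/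
def Md (_φ : A →ₐ[k] Matrix (Fin n) (Fin n) k) : Type := Fin n → k

instance (φ : A →ₐ[k] Matrix (Fin n) (Fin n) k) : AddCommGroup (Md φ) :=
  inferInstanceAs (AddCommGroup (Fin n → k))

instance (φ : A →ₐ[k] Matrix (Fin n) (Fin n) k) : Module k (Md φ) :=
  inferInstanceAs (Module k (Fin n → k))

instance (φ : A →ₐ[k] Matrix (Fin n) (Fin n) k) : Module A (Md φ) where
  smul a v := (φ a).mulVec v
  one_smul v := by
    change (φ 1).mulVec v = v
    rw [map_one, Matrix.one_mulVec]
  mul_smul a b v := by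
    change (φ (a * b)).mulVec v = (φ a).mulVec ((φ b).mulVec v)
    rw [map_mul, Matrix.mulVec_mulVec]
  smul_zero a := Matrix.mulVec_zero _
  smul_add a v w := Matrix.mulVec_add _ _ _
  add_smul a b v := by
    change (φ (a + b)).mulVec v = (φ a).mulVec v + (φ b).mulVec v
    rw [map_add, Matrix.add_mulVec]
  zero_smul v := by
    change (φ 0).mulVec v = 0
    rw [map_zero, Matrix.zero_mulVec]

lemma smul_def (φ : A →ₐ[k] Matrix (Fin n) (Fin n) k) (a : A) (v : Md φ) :
    a • v = (φ a).mulVec v := rfl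

instance (φ : A →ₐ[k] Matrix (Fin n) (Fin n) k) : IsScalarTower k A (Md φ) where
  smul_assoc c a v := by
    change (φ (c • a)).mulVec v = c • (φ a).mulVec v
    rw [map_smul, Matrix.smul_mulVec]

/-- a simple module killed by the annihilator of a semisimple module embeds -/
lemma exists_hom_of_ann {L : Type} [Finite L] {n₀ : ℕ} {n : L → ℕ}
    (φ₀ : A →ₐ[k] Matrix (Fin n₀) (Fin n₀) k)
    (ψ : ∀ l, A →ₐ[k] Matrix (Fin (n l)) (Fin (n l)) k) [hs : IsSimpleModule A (Md φ₀)]
    [∀ l, IsSemisimpleModule A (Md (ψ l))] (hk : ∀ x : A, (∀ l, ψ l x = 0) → φ₀ x = 0) :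
    ∃ l, ∃ f : Md φ₀ →ₗ[A] Md (ψ l), f ≠ 0 := by
  classical
  have hnt : Nontrivial (Md φ₀) := IsSimpleModule.nontrivial A (Md φ₀)
  obtain ⟨v, hv⟩ := exists_ne (0 : Md φ₀)
  let e : ∀ l, Fin (n l) → Md (ψ l) := fun l i => (Pi.single i 1 : Fin (n l) → k)
  let Φ : A →ₗ[A] (∀ l, Fin (n l) → Md (ψ l)) :=
    LinearMap.pi fun l => LinearMap.pi fun i => LinearMap.toSpanSingleton A (Md (ψ l)) (e l i)
  let π : A →ₗ[A] Md φ₀ := LinearMap.toSpanSingleton A (Md φ₀) v
  have hπ : Function.Surjective π := IsSimpleModule.toSpanSingleton_surjective A hv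
  have hker : LinearMap.ker Φ ≤ LinearMap.ker π := by
    intro x hx
    rw [LinearMap.mem_ker] at hx ⊢
    have h1 : φ₀ x = 0 := by
      refine hk x fun l => ?_
      ext i j
      have h2 : (Φ x) l j = 0 := by rw [hx]; rfl
      have h3 : (Φ x) l j = (ψ l x).mulVec (Pi.single j 1) := rfl
      rw [h3] at h2
      have h4 := congrFun (h2 : (ψ l x).mulVec (Pi.single j 1) = (0 : Fin (n l) → k)) i
      rw [Matrix.mulVec_single_one] at h4
      exact h4
    change (φ₀ x).mulVec v = (0 : Fin n₀ → k)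
    rw [h1, Matrix.zero_mulVec]
  let g : LinearMap.range Φ →ₗ[A] Md φ₀ :=
    ((LinearMap.ker Φ).liftQ π hker).comp (Φ.quotKerEquivRange.symm : _ →ₗ[A] _)
  have hg : Function.Surjective g := by
    intro w
    obtain ⟨a, rfl⟩ := hπ w
    refine ⟨Φ.quotKerEquivRange (Submodule.Quotient.mk a), ?_⟩
    change ((LinearMap.ker Φ).liftQ π hker) (Φ.quotKerEquivRange.symm
      (Φ.quotKerEquivRange (Submodule.Quotient.mk a))) = π a
    rw [LinearEquiv.symm_apply_apply]
    rfl
  obtain ⟨P, ⟨eP⟩⟩ := IsSemisimpleModule.exists_submodule_linearEquiv_quotient (R := A)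
    (M := LinearMap.range Φ) (LinearMap.ker g)
  let E : P ≃ₗ[A] Md φ₀ := eP.trans (g.quotKerEquivOfSurjective hg)
  let F : Md φ₀ →ₗ[A] (∀ l, Fin (n l) → Md (ψ l)) :=
    (LinearMap.range Φ).subtype.comp (P.subtype.comp (E.symm : Md φ₀ →ₗ[A] P))
  have hF : F v ≠ 0 := by
    intro h0
    apply hv
    have h1 : Function.Injective F :=
      (Submodule.subtype_injective _).comp ((Submodule.subtype_injective _).comp E.symm.injective)
    exact h1 (h0.trans (map_zero F).symm)
  have h5 : ∃ l i, F v l i ≠ 0 := by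
    by_contra hcon
    push Not at hcon
    apply hF
    funext l i
    exact hcon l i
  obtain ⟨l, i, hli⟩ := h5
  refine ⟨l, (LinearMap.proj i).comp ((LinearMap.proj l).comp F), fun h0 => hli ?_⟩
  exact congrArg (fun f : Md φ₀ →ₗ[A] Md (ψ l) => f v) h0

/-- **Simple constituents from a relation of traces.** -/
theorem exists_hom [CharZero k] {J L : Type} [Fintype J] [Fintype L] {n : J → ℕ} {m : L → ℕ}
    (φ : ∀ j, A →ₐ[k] Matrix (Fin (n j)) (Fin (n j)) k)
    (ψ : ∀ l, A →ₐ[k] Matrix (Fin (m l)) (Fin (m l)) k) (j₀ : J)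
    [IsSimpleModule A (Md (φ j₀))] [∀ l, IsSemisimpleModule A (Md (ψ l))]
    (htr : ∀ a, ∑ j, (φ j a).trace = ∑ l, (ψ l a).trace) :
    ∃ l, ∃ f : Md (φ j₀) →ₗ[A] Md (ψ l), f ≠ 0 := by
  classical
  refine exists_hom_of_ann (φ j₀) ψ fun x hx => ?_
  by_contra hne
  obtain ⟨v, hv⟩ : ∃ v : Fin (n j₀) → k, (φ j₀ x).mulVec v ≠ 0 := by
    by_contra hcon
    push Not at hcon
    apply hne
    ext i j
    have h1 := congrFun (hcon (Pi.single j 1)) i
    rw [Matrix.mulVec_single_one] at h1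
    exact h1
  obtain ⟨a, ha⟩ := IsSimpleModule.toSpanSingleton_surjective (M := Md (φ j₀)) A
    (m := ((φ j₀ x).mulVec v : Fin (n j₀) → k)) hv v
  have hav : (φ j₀ (a * x)).mulVec v = v := by
    rw [map_mul, ← Matrix.mulVec_mulVec]
    exact ha
  have hv0 : v ≠ 0 := by
    rintro rfl
    exact hv (Matrix.mulVec_zero _)
  obtain ⟨N, hN, hnil⟩ := nilpotent_of_traces (fun j => φ j (a * x)) fun m hm => by
    have h1 : ∀ j, φ j (a * x) ^ m = φ j ((a * x) ^ m) := fun j => (map_pow _ _ _).symm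
    simp_rw [h1]
    rw [htr]
    refine Finset.sum_eq_zero fun l _ => ?_
    rw [map_pow, map_mul, hx l, mul_zero, zero_pow hm.ne', Matrix.trace_zero]
  have hfix : ∀ m : ℕ, (φ j₀ (a * x) ^ m).mulVec v = v := by
    intro m
    induction m with
    | zero => rw [pow_zero, Matrix.one_mulVec]
    | succ m ih => rw [pow_succ, ← Matrix.mulVec_mulVec, hav, ih]
  have h2 := hfix N
  rw [hnil j₀, Matrix.zero_mulVec] at h2
  exact hv0 h2.symm

end modules

end Pool.Agent.Y719.NG
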